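import Pool.Agent.H132Z.RT.Main

/-! Ramsey's theorem for pairs and two colours is not computably reducible to the avoidance of the
separable permutation `120`. -/

set_option autoImplicit false

namespace Pool.Agent.Results.MP_cb9c95_lc.NotReducible

open Pool.Agent.H132Z.RT

/-- The permutation `120` is separable, and `RT²₂` is not computably reducible to `RT²₂(120)`. -/
theorem result :
    Separable [1, 2, 0] ∧ ¬ CompRed SolRT (SolRTp (permPattern [1, 2, 0])) :=
  ⟨Separable.skew [0, 1] [0] (Separable.direct [0] [0] Separable.point Separable.point)
    Separable.point, main⟩

end Pool.Agent.Results.MP_cb9c95_lc.NotReducible
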